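import Pool.Agent.helper80.SG.Spec

/-!
# Project sg: module CPL
-/

set_option autoImplicit false
set_option linter.unusedSectionVars false

namespace Pool.Agent.SG

open MvPolynomial Module Pool.Agent.SV

theorem CPL_line (a b : ℂ) : PolyFun (fun t : ℂ => a + t * (b - a)) :=
  (PolyFun.const a).add (PolyFun.id.mul (PolyFun.const (b - a)))

theorem CPL_fnl {ι κ : Type} [Fintype ι] [DecidableEq ι] [Fintype κ] [DecidableEq κ]
    (hPLY : PLY_stmt) (c : ι → κ) (p : ℂ → ι → ℂ) (hp : ∀ i, PolyFun (fun t => p t i))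
    (o : Option ι) (f : MvPolynomial ι ℂ) : PolyFun (fun t : ℂ => fnl (p t) o f) := by
  have h := (hPLY (ι := ι) (κ := κ)).1 (fun i t => p t i) hp
  rcases o with _ | i
  · have h1 := h f
    have e : (fun t : ℂ => fnl (p t) none f) = fun t => eval (fun i => p t i) f := by
      funext t
      rw [fnl_none]
    rw [e]
    exact h1
  · have h1 := h (pderiv i f)
    have e : (fun t : ℂ => fnl (p t) (some i) f) = fun t => eval (fun i => p t i) (pderiv i f) := by
      funext t
      rw [fnl_some]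
    rw [e]
    exact h1

theorem CPL_roleF {ι κ : Type} [Fintype ι] [DecidableEq ι] [Fintype κ] [DecidableEq κ]
    (hPLY : PLY_stmt) (c : ι → κ) (T : Finset κ) (P₀ P₁ : (ι → ℂ) × (ι → ℂ))
    (o : Option (Fin 3 × Option ι)) (f : MvPolynomial ι ℂ) :
    PolyFun (fun t : ℂ => roleF c T (P₀ + t • (P₁ - P₀)) o f) := by
  have hl1 : ∀ i, PolyFun (fun t : ℂ => (P₀ + t • (P₁ - P₀)).1 i) := fun i => by
    have := CPL_line (P₀.1 i) (P₁.1 i)
    simpa using this
  have hl2 : ∀ i, PolyFun (fun t : ℂ => (P₀ + t • (P₁ - P₀)).2 i) := fun i => by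
    have := CPL_line (P₀.2 i) (P₁.2 i)
    simpa using this
  rcases o with _ | ⟨a, o⟩
  · have e : (fun t : ℂ => roleF c T (P₀ + t • (P₁ - P₀)) none f) = fun t : ℂ =>
        ∑ i ∈ Finset.univ.filter (fun i => c i ∈ T), (P₀ + t • (P₁ - P₀)).2 i *
          fnl ((P₀ + t • (P₁ - P₀)).1) (some i) f := by
      funext t
      show tgtL c T _ f = _
      rw [tgtL_apply]
      refine Finset.sum_congr rfl fun i _ => ?_
      rw [fnl_some]
    rw [e]
    refine PolyFun.sum _ fun i _ => ?_
    exact (hl2 i).mul (CPL_fnl hPLY c (fun t => (P₀ + t • (P₁ - P₀)).1) hl1 (some i) f)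
  · show PolyFun (fun t : ℂ => fnl (ptc c T a (P₀ + t • (P₁ - P₀))) o f)
    refine CPL_fnl hPLY c (fun t => ptc c T a (P₀ + t • (P₁ - P₀))) (fun i => ?_) o f
    unfold ptc
    by_cases hT : c i ∈ T
    · by_cases h0 : a = 0
      · simp only [hT, h0, if_true]
        exact hl1 i
      · by_cases h1 : a = 1
        · simp only [hT, h1, if_true, one_ne_zero, if_false]
          exact hl2 i
        · simp only [hT, h0, h1, if_true, if_false]
          exact (hl1 i).add (hl2 i)
    · simp only [hT, if_false]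
      exact hl1 i

theorem CPL (hPLY : PLY_stmt) : CPL_stmt := by
  intro ι κ _ _ _ _ c T d L Γ dbl role Z₀ Z₁ v w
  rcases w with ⟨l, o⟩ | ⟨γ, o⟩
  · by_cases h : o = none ∨ dbl l = true
    · have e : (fun t : ℂ => compL c T d dbl role (Z₀ + t • (Z₁ - Z₀)) v (Sum.inl (l, o))) =
          fun t : ℂ => fnl ((Z₀ + t • (Z₁ - Z₀)).1 l) o (v : MvPolynomial ι ℂ) := by
        funext t
        simp [compL, h]
      rw [e]
      refine CPL_fnl hPLY c (fun t => (Z₀ + t • (Z₁ - Z₀)).1 l) (fun i => ?_) o _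
      have := CPL_line (Z₀.1 l i) (Z₁.1 l i)
      simpa using this
    · have e : (fun t : ℂ => compL c T d dbl role (Z₀ + t • (Z₁ - Z₀)) v (Sum.inl (l, o))) =
          fun t : ℂ => 0 := by
        funext t
        simp [compL, h]
      rw [e]
      exact PolyFun.const 0
  · by_cases h : used (role γ) o = true
    · have e : (fun t : ℂ => compL c T d dbl role (Z₀ + t • (Z₁ - Z₀)) v (Sum.inr (γ, o))) =
          fun t : ℂ => roleF c T (Z₀.2 γ + t • (Z₁.2 γ - Z₀.2 γ)) o (v : MvPolynomial ι ℂ) := by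
        funext t
        simp [compL, h]
      rw [e]
      exact CPL_roleF hPLY c T (Z₀.2 γ) (Z₁.2 γ) o _
    · have e : (fun t : ℂ => compL c T d dbl role (Z₀ + t • (Z₁ - Z₀)) v (Sum.inr (γ, o))) =
          fun t : ℂ => 0 := by
        funext t
        simp [compL, h]
      rw [e]
      exact PolyFun.const 0

end Pool.Agent.SG
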