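import Pool.Agent.helper80.SG.Spec

/-!
# Project sg: module ID3 (the cluster identity)
-/

set_option autoImplicit false
set_option linter.unusedSectionVars false

namespace Pool.Agent.SG

open MvPolynomial Module Pool.Agent.SV

variable {ι κ : Type} [Fintype ι] [DecidableEq ι] [Fintype κ] [DecidableEq κ]

/-- the weighted sum of derivatives -/
noncomputable def ID3_D (c : ι → κ) (T : Finset κ) (w y : ι → ℂ) (f : MvPolynomial ι ℂ) : ℂ :=
  ∑ i ∈ Finset.univ.filter (fun i => c i ∈ T), w i * eval y (pderiv i f)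

theorem ID3_D_add (c : ι → κ) (T : Finset κ) (w y : ι → ℂ) (f g : MvPolynomial ι ℂ) :
    ID3_D c T w y (f + g) = ID3_D c T w y f + ID3_D c T w y g := by
  unfold ID3_D
  rw [← Finset.sum_add_distrib]
  refine Finset.sum_congr rfl fun i _ => ?_
  rw [map_add, map_add, mul_add]

theorem ID3_D_X (c : ι → κ) (T : Finset κ) (w y : ι → ℂ) (j : ι) (hj : c j ∈ T)
    (g : MvPolynomial ι ℂ) :
    ID3_D c T w y (X j * g) = w j * eval y g + y j * ID3_D c T w y g := by
  unfold ID3_D
  have h : ∀ i ∈ Finset.univ.filter (fun i => c i ∈ T), w i * eval y (pderiv i (X j * g)) =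
      (if i = j then w j * eval y g else 0) + y j * (w i * eval y (pderiv i g)) := by
    intro i _
    rw [pderiv_mul, pderiv_X, map_add, map_mul, map_mul, eval_X]
    by_cases hij : i = j
    · subst hij
      rw [Pi.single_eq_same, map_one, if_pos rfl]
      ring
    · rw [Pi.single_eq_of_ne (fun h => hij h.symm), map_zero, if_neg hij]
      ring
  rw [Finset.sum_congr rfl h, Finset.sum_add_distrib, ← Finset.mul_sum, Finset.sum_ite_eq',
    if_pos (by simp [hj])]

theorem ID3_split (c : ι → κ) (T : Finset κ) (n : ℕ) (m : ι →₀ ℕ)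
    (hm : ∑ i ∈ Finset.univ.filter (fun i => c i ∈ T), m i = n + 1) :
    ∃ (j : ι) (m' : ι →₀ ℕ), c j ∈ T ∧ m = Finsupp.single j 1 + m' ∧
      ∑ i ∈ Finset.univ.filter (fun i => c i ∈ T), m' i = n := by
  have h1 : ∃ j ∈ Finset.univ.filter (fun i => c i ∈ T), m j ≠ 0 := by
    by_contra hcon
    push Not at hcon
    rw [Finset.sum_eq_zero hcon] at hm
    omega
  obtain ⟨j, hj, hmj⟩ := h1
  have hle : Finsupp.single j 1 ≤ m := by
    rw [Finsupp.single_le_iff]
    omega
  refine ⟨j, m - Finsupp.single j 1, by simpa using hj, ?_, ?_⟩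
  · rw [add_comm]
    exact (tsub_add_cancel_of_le hle).symm
  · have h2 : ∑ i ∈ Finset.univ.filter (fun i => c i ∈ T), m i =
        ∑ i ∈ Finset.univ.filter (fun i => c i ∈ T),
          ((m - Finsupp.single j 1 : ι →₀ ℕ) i + (if i = j then 1 else 0)) := by
      refine Finset.sum_congr rfl fun i _ => ?_
      rw [Finsupp.tsub_apply]
      by_cases hij : i = j
      · subst hij
        rw [Finsupp.single_eq_same, if_pos rfl]
        omega
      · rw [Finsupp.single_eq_of_ne hij, if_neg hij]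
        omega
    rw [h2, Finset.sum_add_distrib, Finset.sum_ite_eq', if_pos hj] at hm
    omega

theorem ID3_mono (m m' : ι →₀ ℕ) (j : ι) (a : ℂ) (h : m = Finsupp.single j 1 + m') :
    monomial m a = X j * monomial m' a := by
  rw [h, X, monomial_mul, one_mul]

theorem ID3_R (c : ι → κ) (T : Finset κ) (P : (ι → ℂ) × (ι → ℂ)) (m : ι →₀ ℕ) (a : ℂ)
    (hm : ∑ i ∈ Finset.univ.filter (fun i => c i ∈ T), m i = 0) (b : Fin 3) :
    eval (ptc c T b P) (monomial m a) = eval P.1 (monomial m a) := by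
  rw [eval_monomial, eval_monomial, Finsupp.prod_fintype _ _ (fun i => pow_zero _),
    Finsupp.prod_fintype _ _ (fun i => pow_zero _)]
  congr 1
  refine Finset.prod_congr rfl fun i _ => ?_
  by_cases hi : c i ∈ T
  · have h0 : m i = 0 := by
      rw [Finset.sum_eq_zero_iff] at hm
      exact hm i (by simp [hi])
    rw [h0, pow_zero, pow_zero]
  · unfold ptc
    rw [if_neg hi]

theorem ID3_R' (c : ι → κ) (T : Finset κ) (w y : ι → ℂ) (m : ι →₀ ℕ) (a : ℂ)
    (hm : ∑ i ∈ Finset.univ.filter (fun i => c i ∈ T), m i = 0) :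
    ID3_D c T w y (monomial m a) = 0 := by
  unfold ID3_D
  refine Finset.sum_eq_zero fun i hi => ?_
  rw [Finset.sum_eq_zero_iff] at hm
  rw [pderiv_monomial, hm i hi]
  simp

/-- the identity for one monomial -/
theorem ID3_one (c : ι → κ) (T : Finset κ) (P : (ι → ℂ) × (ι → ℂ)) (m : ι →₀ ℕ) (a : ℂ)
    (hm : ∑ i ∈ Finset.univ.filter (fun i => c i ∈ T), m i = 3) :
    eval (ptc c T 2 P) (monomial m a) = eval (ptc c T 0 P) (monomial m a)
      + eval (ptc c T 1 P) (monomial m a)
      + ID3_D c T P.2 (ptc c T 0 P) (monomial m a)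
      + ID3_D c T P.1 (ptc c T 1 P) (monomial m a) := by
  obtain ⟨j1, m1, hj1, e1, s1⟩ := ID3_split c T 2 m hm
  obtain ⟨j2, m2, hj2, e2, s2⟩ := ID3_split c T 1 m1 s1
  obtain ⟨j3, m3, hj3, e3, s3⟩ := ID3_split c T 0 m2 s2
  rw [ID3_mono m m1 j1 a e1, ID3_mono m1 m2 j2 a e2, ID3_mono m2 m3 j3 a e3]
  have p0 : ∀ j, c j ∈ T → ptc c T 0 P j = P.1 j := fun j hj => by simp [ptc, hj]
  have p1 : ∀ j, c j ∈ T → ptc c T 1 P j = P.2 j := fun j hj => by simp [ptc, hj]
  have p2 : ∀ j, c j ∈ T → ptc c T 2 P j = P.1 j + P.2 j := fun j hj => by simp [ptc, hj]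
  simp only [ID3_D_X c T _ _ j1 hj1, ID3_D_X c T _ _ j2 hj2, ID3_D_X c T _ _ j3 hj3,
    ID3_R' c T _ _ m3 a s3, map_mul, eval_X, p0 _ hj1, p0 _ hj2, p0 _ hj3, p1 _ hj1, p1 _ hj2,
    p1 _ hj3, p2 _ hj1, p2 _ hj2, p2 _ hj3, ID3_R c T P m3 a s3]
  ring

theorem ID3 : ID3_stmt := by
  intro ι κ _ _ _ _ c T d hT f hf P
  have key : ∀ m ∈ f.support, ∀ a : ℂ,
      eval (ptc c T 2 P) (monomial m a) = eval (ptc c T 0 P) (monomial m a)
      + eval (ptc c T 1 P) (monomial m a)
      + ID3_D c T P.2 (ptc c T 0 P) (monomial m a)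
      + ID3_D c T P.1 (ptc c T 1 P) (monomial m a) := by
    intro m hm a
    refine ID3_one c T P m a ?_
    have hmem : m ∈ Mon c Finset.univ d := (mem_Sec.1 hf) m (by simpa using hm)
    rw [← hT]
    have h1 := fun k => hmem.2 k
    calc ∑ i ∈ Finset.univ.filter (fun i => c i ∈ T), m i
        = ∑ k ∈ T, ∑ i ∈ (Finset.univ.filter (fun i => c i ∈ T)).filter (fun i => c i = k), m i :=
          (Finset.sum_fiberwise_of_maps_to (fun i hi => by simpa using hi) _).symm
      _ = ∑ k ∈ T, d k := by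
          refine Finset.sum_congr rfl fun k hk => ?_
          rw [← h1 k]
          refine Finset.sum_congr ?_ fun _ _ => rfl
          ext i
          simp only [Finset.mem_filter, Finset.mem_univ, true_and]
          constructor
          · rintro ⟨_, h⟩
            exact h
          · intro h
            exact ⟨h ▸ hk, h⟩
  have hsum : ∀ s : Finset (ι →₀ ℕ), s ⊆ f.support →
      eval (ptc c T 2 P) (∑ m ∈ s, monomial m (coeff m f)) =
      eval (ptc c T 0 P) (∑ m ∈ s, monomial m (coeff m f))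
      + eval (ptc c T 1 P) (∑ m ∈ s, monomial m (coeff m f))
      + ID3_D c T P.2 (ptc c T 0 P) (∑ m ∈ s, monomial m (coeff m f))
      + ID3_D c T P.1 (ptc c T 1 P) (∑ m ∈ s, monomial m (coeff m f)) := by
    intro s
    induction s using Finset.induction_on with
    | empty => intro _; simp [ID3_D]
    | insert m s hms ih =>
      intro hs
      rw [Finset.sum_insert hms, ID3_D_add, ID3_D_add, map_add, map_add, map_add,
        ih (fun x hx => hs (Finset.mem_insert_of_mem hx)),
        key m (hs (Finset.mem_insert_self m s)) (coeff m f)]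
      ring
  have h := hsum f.support (Finset.Subset.refl _)
  rw [← f.as_sum] at h
  exact h

end Pool.Agent.SG
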