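import Pool.Agent.helper3.SG.SpecN

/-!
# Project sg: module Z01
-/

set_option autoImplicit false

open MeasureTheory Set Metric Filter Topology
open scoped ENNReal NNReal ComplexConjugate commutatorElement

namespace Pool.Agent.SG

theorem Z01 (hHUB : HUB_stmt) (hREG : REG_stmt) (h09 : M09_stmt) (h03 : N03_stmt)
    (h12 : K12_stmt) (hGEX : SGG.GEX_stmt) : Z01_stmt := by
  intro Γ _ A W ν hS hφ
  rcases h09 Γ A W ν hS with hac | hsing
  swap
  · exact hsing
  exfalso
  have hub := hHUB Γ A W ν hS hac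
  have hcoc : A.Cocompact := h03 Γ A W ν hS hac hub
  have hstd : Std A W ν := { toStat := hS.toStat, disc := hS.disc, coc := hcoc }
  obtain ⟨f, C', a', hreg⟩ := hREG Γ A W ν hstd hac
  obtain ⟨φ, hφ1⟩ := hφ
  have hadd : SGG.Addv (fun γ : Γ => Multiplicative.toAdd (φ γ)) := by
    intro γ δ
    show Multiplicative.toAdd (φ (γ * δ)) = _
    rw [map_mul]
    rfl
  have hne : ∃ γ : Γ, Multiplicative.toAdd (φ γ) ≠ 0 := by
    by_contra hcon
    push Not at hcon
    apply hφ1
    ext γ
    have := hcon γ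
    rw [MonoidHom.one_apply]
    exact (toAdd_eq_zero).1 this
  obtain ⟨F, ψ, C, hC, hdiff, hre, hψ, hequi, hgrow, hder, z, hz, w, hw, hzw⟩ :=
    hGEX Γ A hS.disc hcoc _ hadd hne
  have hEq : EqHol A F ψ (max C 1) := by
    refine ⟨le_max_right _ _, hdiff, fun γ z hz => hequi γ z (by simpa using hz), fun z hz => ?_⟩
    refine (hgrow z (by simpa using hz)).trans ?_
    refine mul_le_mul_of_nonneg_right (le_max_left _ _) ?_
    have h1 : 0 ≤ Real.log (1 / (1 - ‖z‖)) := by
      apply Real.log_nonneg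
      rw [le_div_iff₀ (by linarith)]
      linarith [norm_nonneg z]
    linarith
  have hz' : ‖z‖ < 1 := by simpa using hz
  have hw' : ‖w‖ < 1 := by simpa using hw
  have e1 := h12 Γ A W F ψ _ ν f C' a' hEq hstd hreg z hz'
  have e2 := h12 Γ A W F ψ _ ν f C' a' hEq hstd hreg w hw'
  exact hzw (e1.trans e2.symm)

end Pool.Agent.SG
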